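import Pool.Agent.Q154.AM.NWX
import Pool.Agent.Q151.AM.GBL

/-!
# Job NGX of project AM (helper17): the number of weights of `GX B B'`
-/

set_option autoImplicit false

open scoped Classical

noncomputable section

namespace Pool.Agent.Q153.AM

open Pool.Agent.H254R3.IN hiding NN
open Pool.Agent.Y63.KR
open Pool.Agent.Q17.WR
open Pool.Agent.Q17.AM
open Pool.Agent.Q17.DC
open Pool.Agent.Q154.AM
open Pool.Agent.Q151.AM (aa aa_ne cy2 aa_mul EE EE_pos EE_neg EE_cl EE_mem Om_gx gx_irr gx_ne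
  gx_block block_disj nch_swap)

section

variable {G : Type} {X Y : Set (G → ℂ)}

/-- the family of the two sets -/
def bl (X Y : Set (G → ℂ)) (ω : Cy 2) : Set (G → ℂ) := if ω = 1 then X else Y

lemma bl_one : bl X Y 1 = X := if_pos rfl

lemma bl_aa : bl X Y aa = Y := if_neg aa_ne

lemma bl_all {P : Set (G → ℂ) → Prop} (hX : P X) (hY : P Y) (ω : Cy 2) : P (bl X Y ω) := by
  rcases cy2 ω with rfl | rfl
  · rw [bl_one]
    exact hX
  · rw [bl_aa]
    exact hY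

lemma bl_inj (hne : X ≠ Y) {ω ω' : Cy 2} (h : bl X Y ω = bl X Y ω') : ω = ω' := by
  rcases cy2 ω with rfl | rfl <;> rcases cy2 ω' with rfl | rfl
  · rfl
  · rw [bl_one, bl_aa] at h
    exact absurd h hne
  · rw [bl_one, bl_aa] at h
    exact absurd h.symm hne
  · rfl

variable [Group G]

lemma nch_rot [Fintype G] (f : Cy 2 → G → ℂ) (a : Cy 2) :
    (nch (fun ω => f (a * ω)) : Wc G 2 → ℂ) = nch f := by
  rcases cy2 a with rfl | rfl
  · simp only [one_mul]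
  · exact (nch_swap f).symm

lemma mem_GX {ψ : Wc G 2 → ℂ} : ψ ∈ GX X Y ↔
    ∃ f : Cy 2 → G → ℂ, (∀ ω, f ω ∈ bl X Y ω) ∧ ψ = nch f := by
  constructor
  · rintro ⟨f, h1, h2, h3⟩
    refine ⟨f, fun ω => ?_, h3⟩
    rcases cy2 ω with rfl | rfl
    · rw [bl_one]
      exact h1
    · rw [bl_aa]
      exact h2
  · rintro ⟨f, h, h3⟩
    refine ⟨f, ?_, ?_, h3⟩
    · have h1 := h 1
      rwa [bl_one] at h1
    · have h1 := h aa
      rwa [bl_aa] at h1

end

section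

variable {G : Type} [Group G] [Fintype G] {O : ValuationSubring ℂ} {B B' : Set (G → ℂ)}

lemma bl_block (hB : IsBlock O B) (hB' : IsBlock O B') (ω : Cy 2) : IsBlock O (bl B B' ω) :=
  bl_all (P := fun X => IsBlock O X) hB hB' ω

lemma bl_eq (hB : IsBlock O B) (hB' : IsBlock O B') (hne : B ≠ B') {χ : G → ℂ} {ω ω' : Cy 2}
    (h : χ ∈ bl B B' ω) (h' : χ ∈ bl B B' ω') : ω = ω' :=
  bl_inj hne (block_disj (bl_block hB hB' ω) (bl_block hB hB' ω') h h')

/-- a family with the members in the two blocks is not constant -/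
lemma bl_ncn (hB : IsBlock O B) (hB' : IsBlock O B') (hne : B ≠ B') {f : Cy 2 → G → ℂ} {a : Cy 2}
    (hf : ∀ ω, f ω ∈ bl B B' (a * ω)) : Ncn f := by
  refine ⟨1, aa, fun h => ?_⟩
  have h1 := hf 1
  rw [h] at h1
  have h2 := bl_eq hB hB' hne h1 (hf aa)
  exact aa_ne (mul_left_cancel h2).symm

lemma psi_mem2 (hB : IsBlock O B) (hB' : IsBlock O B') (hne : B ≠ B') {c : Cy 2 → G → ℂ}
    {a : Cy 2} (hc : ∀ ω, c ω ∈ bl B B' (a * ω)) : psi c ∈ GX B B' := by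
  unfold psi
  rw [if_pos (bl_ncn hB hB' hne hc)]
  refine mem_GX.mpr ⟨fun ω => c (a⁻¹ * ω), fun ω => ?_, (nch_rot c a⁻¹).symm⟩
  have h1 := hc (a⁻¹ * ω)
  rwa [mul_inv_cancel_left] at h1

lemma mem_psi2 (cls : S_CLS) (hB : IsBlock O B) (hB' : IsBlock O B') (hne : B ≠ B')
    {c : Cy 2 → G → ℂ} (hc : ∀ ω, IsIrr (c ω)) (h : psi c ∈ GX B B') :
    ∃ a : Cy 2, ∀ ω, c ω ∈ bl B B' (a * ω) := by
  obtain ⟨-, -, -, c4, -, c6⟩ := cls G 2
  obtain ⟨f, hf, he⟩ := mem_GX.mp h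
  have hfn : Ncn f := bl_ncn hB hB' hne (a := 1) fun ω => by
    rw [one_mul]
    exact hf ω
  have hfi : ∀ ω, IsIrr (f ω) := fun ω => (bl_block hB hB' ω).irr _ (hf ω)
  unfold psi at he
  split_ifs at he with h1
  · obtain ⟨b, hb⟩ := c4 c f hc hfi h1 he
    refine ⟨b⁻¹, fun ω => ?_⟩
    have h2 := hf (b⁻¹ * ω)
    rw [hb] at h2
    change c (b * (b⁻¹ * ω)) ∈ _ at h2
    rwa [mul_inv_cancel_left] at h2
  · exact absurd he.symm (c6 f (c 1) 1 hfi hfn (hc 1))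

variable {p : ℕ} [Fact p.Prime]

/-- the values on the base group decide about the membership in `GX B B'` -/
lemma mem_GX_of (cls : S_CLS) (hB : IsBlock O B) (hB' : IsBlock O B')
    (hne : B ≠ B') {ψ χ : Wc G 2 → ℂ} (hψ : IsIrr ψ) (hχ : χ ∈ GX B B')
    (h : ∀ x : Wc G 2, x.right = 1 → red O (omega ψ x) = red O (omega χ x)) :
    ψ ∈ GX B B' := by
  have : Fintype (Wc G 2) := Fintype.ofFinite _
  by_contra hn
  have hχi := gx_irr cls hB hB' hne χ hχ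
  have h1 := Om_gx cls hB hB' hne hχi
  have h2 := Om_gx cls hB hB' hne hψ
  rw [if_pos hχ] at h1
  rw [if_neg hn] at h2
  have hcl : IsCl (EE (blockCoeff B) (blockCoeff B') : Wc G 2 → ℂ) :=
    EE_cl (blockCoeff_cl hB.irr) (blockCoeff_cl hB'.irr)
  have hO : ∀ g : Wc G 2, EE (blockCoeff B) (blockCoeff B') g ∈ O :=
    EE_mem (blockCoeff_mem hB) (blockCoeff_mem hB')
  have h3 := (red_Om hχi hcl hO).2
  have h4 := (red_Om hψ hcl hO).2
  have h5 : red O (Om (EE (blockCoeff B) (blockCoeff B')) χ) =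
      red O (Om (EE (blockCoeff B) (blockCoeff B')) ψ) := by
    rw [h3, h4]
    refine Finset.sum_congr rfl fun K _ => ?_
    by_cases hK : (rep K).right = 1
    · rw [h _ hK]
    · rw [EE_neg _ _ hK, red_zero, zero_mul, zero_mul]
  rw [h1, h2, red_one, red_zero] at h5
  exact one_ne_zero h5

/-- from `Wc G 2` to `G` -/
theorem ind_fwd2 (hpO : (p : ℂ) ∈ O.nonunits) (hp2 : p ≠ 2) (cls : S_CLS) (ccl : S_CCL)
    (hB : IsBlock O B) (hB' : IsBlock O B') (hne : B ≠ B')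
    {Q' : Cy 2 → Subgroup G} (hQ : ∀ ω, IsPGroup p (Q' ω))
    {f : ∀ ω, NN (Q' ω) → ℂ} (hf : ∀ ω, IsIrr (f ω)) {S : Wc G 2 → ℂ}
    (hS : ∀ x : Wc G 2, x.right = 1 → ∀ n : ℕ, Nat.card {y : Wc G 2 // IsConj x y} =
      n * ∏ ω, Nat.card {y : G // IsConj (x.left ω) y} →
      ((2 : ℕ) : ℂ) * S x = n * ∑ a : Cy 2, ∏ ω, Ic (f ω) (x.left (a * ω)))
    (hind : ∀ χ ∈ GX B B', ∀ x : Wc G 2, x.right = 1 → omega χ x - S x ∈ O.nonunits) :
    ∃ a : Cy 2, ∀ ω, ∀ χ ∈ bl B B' (a * ω), ∀ z : G,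
      omega χ z - Ic (f ω) z ∈ O.nonunits := by
  have : Fintype (Wc G 2) := Fintype.ofFinite _
  choose c hc1 hc2 using fun ω => exi hpO (hQ ω) (hf ω)
  have hirr : IsIrr (psi c) := psi_irr cls hc1
  have hag := agree hpO hp2 ccl hS hc1 hc2 hirr
  obtain ⟨χ₀, hχ₀⟩ := gx_ne hB hB'
  have h1 : psi c ∈ GX B B' := by
    refine mem_GX_of cls hB hB' hne hirr hχ₀ fun x hx => ?_
    obtain ⟨h2, h3⟩ := hag x hx
    rw [h3]
    exact ((red_eq_iff ((gx_irr cls hB hB' hne _ hχ₀).omega_mem O x) h2).mpr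
      (hind _ hχ₀ x hx)).symm
  obtain ⟨a, ha⟩ := mem_psi2 cls hB hB' hne hc1 h1
  refine ⟨a, fun ω χ hχ z => ?_⟩
  have hb := bl_block hB hB' (a * ω)
  obtain ⟨h3, h4⟩ := red_congr ((hc1 ω).omega_mem O z) (hc2 ω z)
  rw [← red_eq_iff ((hb.irr χ hχ).omega_mem O z) h3, ← h4]
  exact hb.red_eq hχ (ha ω) z

/-- from `G` to `Wc G 2` -/
theorem ind_bwd2 (hpO : (p : ℂ) ∈ O.nonunits) (hp2 : p ≠ 2) (cls : S_CLS) (ccl : S_CCL)
    (hB : IsBlock O B) (hB' : IsBlock O B') (hne : B ≠ B')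
    {Q' : Cy 2 → Subgroup G} {f : ∀ ω, NN (Q' ω) → ℂ} {S : Wc G 2 → ℂ}
    (hS : ∀ x : Wc G 2, x.right = 1 → ∀ n : ℕ, Nat.card {y : Wc G 2 // IsConj x y} =
      n * ∏ ω, Nat.card {y : G // IsConj (x.left ω) y} →
      ((2 : ℕ) : ℂ) * S x = n * ∑ a : Cy 2, ∏ ω, Ic (f ω) (x.left (a * ω)))
    {a : Cy 2} (hind : ∀ ω, ∀ χ ∈ bl B B' (a * ω), ∀ z : G,
      omega χ z - Ic (f ω) z ∈ O.nonunits)
    (χ : Wc G 2 → ℂ) (hχ : χ ∈ GX B B') (x : Wc G 2) (hx : x.right = 1) :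
    omega χ x - S x ∈ O.nonunits := by
  have : Fintype (Wc G 2) := Fintype.ofFinite _
  choose c hc using fun ω => (bl_block hB hB' (a * ω)).nonempty
  have hi : ∀ ω, IsIrr (c ω) := fun ω => (bl_block hB hB' (a * ω)).irr _ (hc ω)
  have hirr : IsIrr (psi c) := psi_irr cls hi
  obtain ⟨h1, h2⟩ := agree hpO hp2 ccl hS hi (fun ω x => hind ω _ (hc ω) x) hirr x hx
  have hbl := gx_block cls ccl hp2 hpO hB hB' hne
  rw [← red_eq_iff ((hbl.irr _ hχ).omega_mem O x) h1, ← h2]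
  exact hbl.red_eq hχ (psi_mem2 hB hB' hne hc) x

/-- the values of the members of `GX B B'` outside the base group -/
lemma GX_out (ccl : S_CCL) {χ : Wc G 2 → ℂ} (hχ : χ ∈ GX B B') {x : Wc G 2}
    (hx : x.right ≠ 1) : omega χ x = 0 := by
  obtain ⟨f, -, rfl⟩ := mem_GX.mp hχ
  exact ((ccl G 2).2 x hx).1 f

/-- a weight belongs to at most one of the two blocks -/
lemma wt_bl_eq (hB : IsBlock O B) (hB' : IsBlock O B') (hne : B ≠ B') {Q : Subgroup G}
    {θ : NN Q → ℂ} {ω ω' : Cy 2} (w : IsWt p O (bl B B' ω) Q θ)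
    (w' : IsWt p O (bl B B' ω') Q θ) : ω = ω' := by
  obtain ⟨χ, hχ⟩ := (bl_block hB hB' ω).nonempty
  obtain ⟨χ', hχ'⟩ := (bl_block hB hB' ω').nonempty
  have hi := (bl_block hB hB' ω).irr χ hχ
  have hi' := (bl_block hB hB' ω').irr χ' hχ'
  by_cases hm : χ' ∈ bl B B' ω
  · exact bl_eq hB hB' hne hm hχ'
  · obtain ⟨x, hx⟩ := (bl_block hB hB' ω).exists_ne hχ hi' hm
    exfalso
    apply hx
    obtain ⟨h3, h4⟩ := red_congr (hi.omega_mem O x) (w.ind χ hχ x)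
    obtain ⟨h5, h6⟩ := red_congr (hi'.omega_mem O x) (w'.ind χ' hχ' x)
    rw [h4, h6]

/-- **the criterion**, first part -/
theorem wt_fwd2 (hpO : (p : ℂ) ∈ O.nonunits) (hp2 : p ≠ 2) (cls : S_CLS) (ccl : S_CCL)
    (hB : IsBlock O B) (hB' : IsBlock O B') (hne : B ≠ B')
    {Q' : Cy 2 → Subgroup G} {φ : NN (Pw Q') → ℂ}
    {f : ∀ ω, NN (Q' ω) → ℂ} (hf : ∀ ω, IsIrr (f ω)) {k k' : ℕ} (hk : ¬ p ∣ k) (hk' : ¬ p ∣ k')
    (hdeg : φ 1 = k * ∏ ω, f ω 1)
    (hcard : Nat.card (NN (Pw Q')) = k' * ∏ ω, Nat.card (NN (Q' ω)))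
    (hker : (∀ x : NN (Pw Q'), (x : Wc G 2) ∈ Pw Q' → φ x = φ 1) →
      ∀ ω, ∀ x : NN (Q' ω), (x : G) ∈ Q' ω → f ω x = f ω 1)
    (hS : ∀ x : Wc G 2, x.right = 1 → ∀ n : ℕ, Nat.card {y : Wc G 2 // IsConj x y} =
      n * ∏ ω, Nat.card {y : G // IsConj (x.left ω) y} →
      ((2 : ℕ) : ℂ) * Ic φ x = n * ∑ a : Cy 2, ∏ ω, Ic (f ω) (x.left (a * ω)))
    (w : IsWt p O (GX B B') (Pw Q') φ) :
    ∃ a : Cy 2, ∀ ω, IsWt p O (bl B B' (a * ω)) (Q' ω) (f ω) := by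
  choose d hd0 hd using fun ω => (hf ω).deg
  have hd0' : ∀ ω, d ω ≠ 0 := fun ω => (hd0 ω).ne'
  have hk0 : k ≠ 0 := fun h => hk (by rw [h]; exact dvd_zero p)
  have hk0' : k' ≠ 0 := fun h => hk' (by rw [h]; exact dvd_zero p)
  have hφ1 : ((k * ∏ ω, d ω : ℕ) : ℂ) = φ 1 := by
    rw [hdeg]
    push_cast
    congr 1
    exact Finset.prod_congr rfl fun ω _ => hd ω
  have hv1 : (k * ∏ ω, d ω).factorization p = ∑ ω, (d ω).factorization p := by
    rw [Nat.factorization_mul hk0 (Finset.prod_ne_zero_iff.mpr fun ω _ => hd0' ω),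
      Finsupp.add_apply, fac_prod p d hd0', Nat.factorization_eq_zero_of_not_dvd hk, zero_add]
  have hv2 : (Nat.card (NN (Pw Q'))).factorization p =
      ∑ ω, (Nat.card (NN (Q' ω))).factorization p := by
    rw [hcard, Nat.factorization_mul hk0' (Finset.prod_ne_zero_iff.mpr fun ω _ =>
      Nat.card_pos.ne'), Finsupp.add_apply, fac_prod p _ fun ω => Nat.card_pos.ne',
      Nat.factorization_eq_zero_of_not_dvd hk', zero_add]
  have hv3 : (Nat.card (Pw Q')).factorization p = ∑ ω, (Nat.card (Q' ω)).factorization p := by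
    rw [card_Pw, fac_prod p _ fun ω => Nat.card_pos.ne']
  have hQ := isp_of_Pw w.isp
  have hkr := hker w.ker
  obtain ⟨a, hind⟩ := ind_fwd2 hpO hp2 cls ccl hB hB' hne hQ hf hS
    (fun χ hχ x _ => w.ind χ hχ x)
  obtain ⟨n, hn1, hn2⟩ := w.defect
  have hn3 : n = k * ∏ ω, d ω := by
    have h1 := hn1.trans hφ1.symm
    exact_mod_cast h1
  rw [hn3, hv1, hv3] at hn2
  have hv2' : (Nat.card (Subgroup.normalizer (Pw Q' : Set (Wc G 2)))).factorization p =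
    ∑ ω, (Nat.card (NN (Q' ω))).factorization p := hv2
  rw [hv2', ← Finset.sum_add_distrib] at hn2
  have hle : ∀ ω ∈ (Finset.univ : Finset (Cy 2)), (Nat.card (Q' ω)).factorization p +
      (d ω).factorization p ≤ (Nat.card (NN (Q' ω))).factorization p := fun ω _ =>
    deg_le' p (hf ω) (hkr ω) (hd ω)
  have heq := (Finset.sum_eq_sum_iff_of_le hle).mp hn2.symm
  refine ⟨a, fun ω => ?_⟩
  exact ⟨hQ ω, hf ω, hkr ω, ⟨d ω, hd ω, (heq ω (Finset.mem_univ ω)).symm⟩, hind ω⟩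

/-- **the criterion**, second part -/
theorem wt_bwd2 (hpO : (p : ℂ) ∈ O.nonunits) (hp2 : p ≠ 2) (cls : S_CLS) (ccl : S_CCL)
    (hB : IsBlock O B) (hB' : IsBlock O B') (hne : B ≠ B')
    {Q' : Cy 2 → Subgroup G} {φ : NN (Pw Q') → ℂ} (hφ : IsIrr φ)
    {f : ∀ ω, NN (Q' ω) → ℂ} (hf : ∀ ω, IsIrr (f ω)) {k k' : ℕ} (hk : ¬ p ∣ k) (hk' : ¬ p ∣ k')
    (hdeg : φ 1 = k * ∏ ω, f ω 1)
    (hcard : Nat.card (NN (Pw Q')) = k' * ∏ ω, Nat.card (NN (Q' ω)))
    (hker : (∀ ω, ∀ x : NN (Q' ω), (x : G) ∈ Q' ω → f ω x = f ω 1) →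
      ∀ x : NN (Pw Q'), (x : Wc G 2) ∈ Pw Q' → φ x = φ 1)
    (hS : ∀ x : Wc G 2, x.right = 1 → ∀ n : ℕ, Nat.card {y : Wc G 2 // IsConj x y} =
      n * ∏ ω, Nat.card {y : G // IsConj (x.left ω) y} →
      ((2 : ℕ) : ℂ) * Ic φ x = n * ∑ a : Cy 2, ∏ ω, Ic (f ω) (x.left (a * ω)))
    (hR : ∀ x : Wc G 2, x.right ≠ 1 → Ic φ x = 0)
    {a : Cy 2} (w : ∀ ω, IsWt p O (bl B B' (a * ω)) (Q' ω) (f ω)) :
    IsWt p O (GX B B') (Pw Q') φ := by
  choose d hd0 hd using fun ω => (hf ω).deg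
  have hd0' : ∀ ω, d ω ≠ 0 := fun ω => (hd0 ω).ne'
  have hk0 : k ≠ 0 := fun h => hk (by rw [h]; exact dvd_zero p)
  have hk0' : k' ≠ 0 := fun h => hk' (by rw [h]; exact dvd_zero p)
  have hφ1 : ((k * ∏ ω, d ω : ℕ) : ℂ) = φ 1 := by
    rw [hdeg]
    push_cast
    congr 1
    exact Finset.prod_congr rfl fun ω _ => hd ω
  have hv1 : (k * ∏ ω, d ω).factorization p = ∑ ω, (d ω).factorization p := by
    rw [Nat.factorization_mul hk0 (Finset.prod_ne_zero_iff.mpr fun ω _ => hd0' ω),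
      Finsupp.add_apply, fac_prod p d hd0', Nat.factorization_eq_zero_of_not_dvd hk, zero_add]
  have hv2 : (Nat.card (NN (Pw Q'))).factorization p =
      ∑ ω, (Nat.card (NN (Q' ω))).factorization p := by
    rw [hcard, Nat.factorization_mul hk0' (Finset.prod_ne_zero_iff.mpr fun ω _ =>
      Nat.card_pos.ne'), Finsupp.add_apply, fac_prod p _ fun ω => Nat.card_pos.ne',
      Nat.factorization_eq_zero_of_not_dvd hk', zero_add]
  have hv3 : (Nat.card (Pw Q')).factorization p = ∑ ω, (Nat.card (Q' ω)).factorization p := by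
    rw [card_Pw, fac_prod p _ fun ω => Nat.card_pos.ne']
  refine ⟨Pw_isp fun ω => (w ω).isp, hφ, hker fun ω => (w ω).ker,
    ⟨k * ∏ ω, d ω, hφ1, ?_⟩, ?_⟩
  · rw [hv1, hv3, ← Finset.sum_add_distrib]
    refine hv2.trans (Finset.sum_congr rfl fun ω _ => ?_)
    obtain ⟨n, hn1, hn2⟩ := (w ω).defect
    have hn3 : n = d ω := by
      have h1 := hn1.trans (hd ω).symm
      exact_mod_cast h1
    rw [hn3] at hn2
    exact hn2
  · intro χ hχ x
    by_cases hx : x.right = 1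
    · exact ind_bwd2 hpO hp2 cls ccl hB hB' hne hS (fun ω => (w ω).ind) χ hχ x hx
    · have h1 := GX_out ccl hχ hx
      have h2 := hR x hx
      change omega χ x - Ic φ x ∈ O.nonunits
      rw [h1, h2, sub_zero]
      exact O.nonunits.zero_mem

end

section

variable {G : Type} [Group G] [Fintype G] {p : ℕ} [Fact p.Prime] {O : ValuationSubring ℂ}
  {B B' : Set (G → ℂ)} {Q' : Cy 2 → Subgroup G}

/-- the kernels in the case of a normaliser in the base group -/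
lemma ker_B (hN : ∀ y ∈ NN (Pw Q'), y.right = 1) {φ : NN (Pw Q') → ℂ}
    {f : ∀ ω, NN (Q' ω) → ℂ} (hf : ∀ ω, IsIrr (f ω)) (h : (fun x => φ (eB hN x)) = pdf f) :
    (∀ x : NN (Pw Q'), (x : Wc G 2) ∈ Pw Q' → φ x = φ 1) ↔
      ∀ ω, ∀ x : NN (Q' ω), (x : G) ∈ Q' ω → f ω x = f ω 1 := by
  have h1 : φ 1 = ∏ ω, f ω 1 := by
    have h2 := congrFun h 1
    simp only [map_one] at h2
    rw [h2]
    rfl
  have hval : ∀ m : ∀ ω, NN (Q' ω), φ (eB hN m) = ∏ ω, f ω (m ω) := fun m => congrFun h m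
  constructor
  · intro hk ω x hx
    have h2 := hk (eB hN (Pi.mulSingle ω x)) (by
      refine ⟨rfl, fun ω' => ?_⟩
      change ((Pi.mulSingle ω x : ∀ ω, NN (Q' ω)) ω' : G) ∈ Q' ω'
      by_cases h3 : ω' = ω
      · subst h3
        rw [Pi.mulSingle_eq_same]
        exact hx
      · rw [Pi.mulSingle_eq_of_ne h3]
        exact (Q' ω').one_mem)
    rw [hval, h1, ← Finset.mul_prod_erase Finset.univ _ (Finset.mem_univ ω),
      ← Finset.mul_prod_erase Finset.univ (fun ω => f ω 1) (Finset.mem_univ ω),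
      Pi.mulSingle_eq_same] at h2
    have h3 : ∏ ω' ∈ Finset.univ.erase ω, f ω' ((Pi.mulSingle ω x : ∀ ω, NN (Q' ω)) ω') =
        ∏ ω' ∈ Finset.univ.erase ω, f ω' 1 :=
      Finset.prod_congr rfl fun ω' hω' => by
        rw [Pi.mulSingle_eq_of_ne (Finset.ne_of_mem_erase hω')]
    rw [h3] at h2
    exact mul_right_cancel₀ (Finset.prod_ne_zero_iff.mpr fun ω' _ => (hf ω').one_ne) h2
  · intro hk y hy
    obtain ⟨m, rfl⟩ := (eB hN).surjective y
    rw [hval, h1]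
    exact Finset.prod_congr rfl fun ω _ => hk ω (m ω) (hy.2 ω)

lemma hS_B (hN : ∀ y ∈ NN (Pw Q'), y.right = 1) {φ : NN (Pw Q') → ℂ}
    {f : ∀ ω, NN (Q' ω) → ℂ} (h : (fun x => φ (eB hN x)) = pdf f)
    (x : Wc G 2) (hx : x.right = 1) (n : ℕ) (hn : Nat.card {y : Wc G 2 // IsConj x y} =
      n * ∏ ω, Nat.card {y : G // IsConj (x.left ω) y}) :
    ((2 : ℕ) : ℂ) * Ic φ x = n * ∑ a : Cy 2, ∏ ω, Ic (f ω) (x.left (a * ω)) := by
  have : Fintype (Wc G 2) := Fintype.ofFinite _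
  rw [Ic_eq]
  have h2 : ∑ y ∈ Finset.univ.filter (fun y : Wc G 2 => IsConj x y), ex φ y =
      ∑ y ∈ Finset.univ.filter (fun y : Wc G 2 => IsConj x y), ∏ ω, ex (f ω) (y.left ω) :=
    Finset.sum_congr rfl fun y hy =>
      ex_B hN h ((conj_base hx).mp (Finset.mem_filter.mp hy).2).1
  rw [h2, key x hx n hn]
  congr 1
  refine Finset.sum_congr rfl fun a _ => Finset.prod_congr rfl fun ω _ => ?_
  rw [Ic_eq]

lemma hR_B (hN : ∀ y ∈ NN (Pw Q'), y.right = 1) (φ : NN (Pw Q') → ℂ) (x : Wc G 2)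
    (hx : x.right ≠ 1) : Ic φ x = 0 := by
  have : Fintype (Wc G 2) := Fintype.ofFinite _
  rw [Ic_eq]
  refine Finset.sum_eq_zero fun y hy => ?_
  unfold ex
  rw [dif_neg]
  intro hm
  obtain ⟨t, ht⟩ := isConj_iff.mp (Finset.mem_filter.mp hy).2
  have h2 := hN y hm
  rw [← ht, Pool.Agent.Q166.AM.conj_right] at h2
  exact hx h2

/-- the weights if the normaliser is in the base group -/
theorem wt_B2 (hpO : (p : ℂ) ∈ O.nonunits) (hp2 : p ≠ 2) (cls : S_CLS) (ccl : S_CCL)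
    (hB : IsBlock O B) (hB' : IsBlock O B') (hne : B ≠ B')
    (hN : ∀ y ∈ NN (Pw Q'), y.right = 1) {φ : NN (Pw Q') → ℂ} (hφ : IsIrr φ)
    {f : ∀ ω, NN (Q' ω) → ℂ} (hf : ∀ ω, IsIrr (f ω)) (h : (fun x => φ (eB hN x)) = pdf f) :
    IsWt p O (GX B B') (Pw Q') φ ↔
      ∃ a : Cy 2, ∀ ω, IsWt p O (bl B B' (a * ω)) (Q' ω) (f ω) := by
  have h1 : φ 1 = ∏ ω, f ω 1 := by
    have h2 := congrFun h 1
    simp only [map_one] at h2
    rw [h2]
    rfl
  have hp1 : ¬ p ∣ 1 := (Fact.out : p.Prime).not_dvd_one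
  have hdeg : φ 1 = ((1 : ℕ) : ℂ) * ∏ ω, f ω 1 := by
    rw [h1]
    simp
  have hcard : Nat.card (NN (Pw Q')) = 1 * ∏ ω, Nat.card (NN (Q' ω)) := by
    rw [one_mul, ← Nat.card_pi]
    exact (Nat.card_congr (eB hN).toEquiv).symm
  constructor
  · intro w
    exact wt_fwd2 hpO hp2 cls ccl hB hB' hne hf hp1 hp1 hdeg hcard (ker_B hN hf h).mp
      (hS_B hN h) w
  · rintro ⟨a, w⟩
    exact wt_bwd2 hpO hp2 cls ccl hB hB' hne hφ hf hp1 hp1 hdeg hcard (ker_B hN hf h).mpr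
      (hS_B hN h) (hR_B hN φ) w

/-- the number of weights, first case -/
theorem nwt_B2 (hpO : (p : ℂ) ∈ O.nonunits) (hp2 : p ≠ 2) (cls : S_CLS) (ccl : S_CCL)
    (hB : IsBlock O B) (hB' : IsBlock O B') (hne : B ≠ B')
    (hN : ∀ y ∈ NN (Pw Q'), y.right = 1) :
    nwt p O (GX B B') (Pw Q') = ∑ a : Cy 2, ∏ ω, nwt p O (bl B B' (a * ω)) (Q' ω) ∧
    Nat.card (NN (Pw Q')) = ∏ ω, Nat.card (NN (Q' ω)) := by
  constructor
  · unfold nwt
    have h0 : ∀ a : Cy 2, ∏ ω, Nat.card {φ : NN (Q' ω) → ℂ // IsWt p O (bl B B' (a * ω)) (Q' ω) φ} =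
        Nat.card (∀ ω, {φ : NN (Q' ω) → ℂ // IsWt p O (bl B B' (a * ω)) (Q' ω) φ}) := fun a =>
      Nat.card_pi.symm
    rw [Finset.sum_congr rfl fun a _ => h0 a, ← Nat.card_sigma]
    symm
    refine Nat.card_eq_of_bijective
      (fun F : (a : Cy 2) × (∀ ω, {φ : NN (Q' ω) → ℂ // IsWt p O (bl B B' (a * ω)) (Q' ω) φ}) =>
        (⟨fun y => pdf (fun ω => (F.2 ω).1) ((eB hN).symm y), ?_⟩ :
          {φ : NN (Pw Q') → ℂ // IsWt p O (GX B B') (Pw Q') φ})) ⟨?_, ?_⟩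
    · have h1 : IsIrr (fun y => pdf (fun ω => (F.2 ω).1) ((eB hN).symm y)) :=
        Pool.Agent.Q222.TC.irr_comp (eB hN).symm (pd_irr _ fun ω => (F.2 ω).2.irr)
      refine (wt_B2 hpO hp2 cls ccl hB hB' hne hN h1 (fun ω => (F.2 ω).2.irr) ?_).mpr
        ⟨F.1, fun ω => (F.2 ω).2⟩
      funext x
      simp only [MulEquiv.symm_apply_apply]
    · rintro ⟨a, F⟩ ⟨a', F'⟩ h
      have h1 : pdf (fun ω => (F ω).1) = pdf (fun ω => (F' ω).1) := by
        funext x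
        have h2 := congrFun (congrArg Subtype.val h) (eB hN x)
        simp only [MulEquiv.symm_apply_apply] at h2
        exact h2
      have h2 := pd_inj _ _ (fun ω => (F ω).2.irr) (fun ω => (F' ω).2.irr) h1
      have h3 : a = a' := by
        have w := (F 1).2
        have w' := (F' 1).2
        have h4 : (F 1).1 = (F' 1).1 := congrFun h2 1
        rw [← h4] at w'
        have h5 := wt_bl_eq hB hB' hne w w'
        exact mul_right_cancel h5
      subst h3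
      have h4 : F = F' := by
        funext ω
        exact Subtype.ext (congrFun h2 ω)
      rw [h4]
    · rintro ⟨φ, w⟩
      obtain ⟨f, hf, h⟩ := pd_surj (fun x => φ (eB hN x))
        (Pool.Agent.Q222.TC.irr_comp (eB hN) w.irr)
      obtain ⟨a, h1⟩ := (wt_B2 hpO hp2 cls ccl hB hB' hne hN w.irr hf h).mp w
      refine ⟨⟨a, fun ω => ⟨f ω, h1 ω⟩⟩, ?_⟩
      apply Subtype.ext
      funext y
      change pdf f ((eB hN).symm y) = φ y
      rw [← h]
      simp only [MulEquiv.apply_symm_apply]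
  · rw [← Nat.card_pi]
    exact (Nat.card_congr (eB hN).toEquiv).symm

variable {P : Subgroup G}

/-- the weights if the two subgroups are equal -/
theorem wt_A2 (hpO : (p : ℂ) ∈ O.nonunits) (hp2 : p ≠ 2) (cls : S_CLS) (ccl : S_CCL)
    (hB : IsBlock O B) (hB' : IsBlock O B') (hne : B ≠ B')
    {φ : NN (Pw fun _ : Cy 2 => P) → ℂ} (hφ : IsIrr φ) :
    IsWt p O (GX B B') (Pw fun _ : Cy 2 => P) φ ↔ ∃ f : Cy 2 → NN P → ℂ,
      (∀ ω, IsWt p O (bl B B' ω) P (f ω)) ∧ (fun x => φ (eA P x)) = nch f := by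
  have : Fintype (NN P) := Fintype.ofFinite _
  have hp1 : ¬ p ∣ 1 := (Fact.out : p.Prime).not_dvd_one
  have hrr : ¬ p ∣ 2 := fun h =>
    hp2 ((Nat.prime_dvd_prime_iff_eq (Fact.out : p.Prime) Nat.prime_two).mp h)
  have hcard : Nat.card (NN (Pw fun _ : Cy 2 => P)) = 2 * ∏ _ω : Cy 2, Nat.card (NN P) := by
    rw [← card_Wc]
    exact (Nat.card_congr (eA P).toEquiv).symm
  constructor
  · intro w
    rcases (cls (NN P) 2).2.2.1 _ (Pool.Agent.Q222.TC.irr_comp (eA P) hφ) with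
      ⟨f, hf, -, h⟩ | ⟨θ, hθ, l, h⟩
    · have hf' : ∀ ω, IsIrr (f ω) := hf
      obtain ⟨a, ha⟩ := wt_fwd2 hpO hp2 cls ccl hB hB' hne (Q' := fun _ => P) hf' hrr hrr
        (nch_one h) hcard (ker_nch hf' h).mp (hS_A (Vl_nch hf' h)) w
      refine ⟨fun ω => f (a⁻¹ * ω), fun ω => ?_, ?_⟩
      · have h1 := ha (a⁻¹ * ω)
        rwa [mul_inv_cancel_left] at h1
      · rw [nch_rot, h]
    · have hθ' : IsIrr θ := hθ
      obtain ⟨a, ha⟩ := wt_fwd2 hpO hp2 cls ccl hB hB' hne (Q' := fun _ => P)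
        (f := fun _ => θ) (k := 1) (fun _ => hθ') hp1 hrr
        (by rw [cch_one h]; simp) hcard (ker_cch hθ' h).mp (hS_A (Vl_cch h)) w
      have h1 := wt_bl_eq hB hB' hne (ha 1) (ha aa)
      exact absurd (mul_left_cancel h1).symm aa_ne
  · rintro ⟨f, w, h⟩
    have hf' : ∀ ω, IsIrr (f ω) := fun ω => (w ω).irr
    refine wt_bwd2 hpO hp2 cls ccl hB hB' hne (Q' := fun _ => P) (a := 1) hφ hf' hrr hrr
      (nch_one h) hcard (ker_nch hf' h).mpr (hS_A (Vl_nch hf' h)) ?_ fun ω => ?_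
    · intro x hx
      have : Fintype (Wc G 2) := Fintype.ofFinite _
      rw [Ic_eq]
      refine Finset.sum_eq_zero fun y hy => ?_
      unfold ex
      split_ifs with hm
      · obtain ⟨z, hz⟩ := (eA P).surjective ⟨y, hm⟩
        obtain ⟨t, ht⟩ := isConj_iff.mp (Finset.mem_filter.mp hy).2
        have h2 : z.right ≠ 1 := by
          intro h3
          apply hx
          have h4 : (eA P z : Wc G 2).right = y.right := by rw [hz]
          rw [eA_right, ← ht, Pool.Agent.Q166.AM.conj_right] at h4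
          rw [← h4, h3]
        have h3 := congrFun h z
        change φ (eA P z) = (if z.right = 1 then ∑ a : Cy 2, ∏ ω, f (a * ω) (z.left ω) else 0)
          at h3
        rw [if_neg h2, hz] at h3
        rw [h3, zero_div]
      · rfl
    · rw [one_mul]
      exact w ω

/-- the number of weights, second case -/
theorem nwt_A2 (hpO : (p : ℂ) ∈ O.nonunits) (hp2 : p ≠ 2) (cls : S_CLS) (ccl : S_CCL)
    (hB : IsBlock O B) (hB' : IsBlock O B') (hne : B ≠ B') (P : Subgroup G) :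
    nwt p O (GX B B') (Pw fun _ : Cy 2 => P) = ∏ ω, nwt p O (bl B B' ω) P ∧
    Nat.card (NN (Pw fun _ : Cy 2 => P)) = 2 * ∏ _ω : Cy 2, Nat.card (NN P) := by
  have : Fintype (NN P) := Fintype.ofFinite _
  have ncn : ∀ {f : Cy 2 → NN P → ℂ}, (∀ ω, IsWt p O (bl B B' ω) P (f ω)) → Ncn f := by
    intro f hf
    refine ⟨1, aa, fun h => ?_⟩
    have w := hf 1
    rw [h] at w
    exact aa_ne (wt_bl_eq hB hB' hne w (hf aa)).symm
  constructor
  · unfold nwt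
    have h0 : ∏ ω, Nat.card {φ : NN P → ℂ // IsWt p O (bl B B' ω) P φ} =
        Nat.card (∀ ω, {φ : NN P → ℂ // IsWt p O (bl B B' ω) P φ}) := Nat.card_pi.symm
    rw [h0]
    symm
    refine Nat.card_eq_of_bijective
      (fun F : (∀ ω : Cy 2, {φ : NN P → ℂ // IsWt p O (bl B B' ω) P φ}) =>
        (⟨fun y => nch (fun ω => (F ω).1) ((eA P).symm y), ?_⟩ :
          {φ : NN (Pw fun _ : Cy 2 => P) → ℂ //
            IsWt p O (GX B B') (Pw fun _ : Cy 2 => P) φ})) ⟨?_, ?_⟩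
    · have h1 : IsIrr (fun y => (nch (fun ω => (F ω).1) : Wc (NN P) 2 → ℂ) ((eA P).symm y)) :=
        Pool.Agent.Q222.TC.irr_comp (eA P).symm
          ((cls (NN P) 2).1 _ (fun ω => (F ω).2.irr) (ncn fun ω => (F ω).2))
      refine (wt_A2 hpO hp2 cls ccl hB hB' hne h1).mpr ⟨fun ω => (F ω).1, fun ω => (F ω).2, ?_⟩
      funext x
      simp only [MulEquiv.symm_apply_apply]
    · intro F F' h
      have h1 : (nch (fun ω => (F ω).1) : Wc (NN P) 2 → ℂ) = nch (fun ω => (F' ω).1) := by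
        funext x
        have h2 := congrFun (congrArg Subtype.val h) (eA P x)
        simp only [MulEquiv.symm_apply_apply] at h2
        exact h2
      obtain ⟨a, ha⟩ := (cls (NN P) 2).2.2.2.1 _ _ (fun ω => (F ω).2.irr)
        (fun ω => (F' ω).2.irr) (ncn fun ω => (F ω).2) h1
      have h2 : (F' 1).1 = (F (a * 1)).1 := congrFun ha 1
      have w := (F' 1).2
      rw [h2] at w
      have h3 := wt_bl_eq hB hB' hne w (F (a * 1)).2
      rw [mul_one] at h3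
      funext ω
      have h4 : (F' ω).1 = (F (a * ω)).1 := congrFun ha ω
      rw [← h3, one_mul] at h4
      exact Subtype.ext h4.symm
    · rintro ⟨φ, w⟩
      obtain ⟨f, hf, h⟩ := (wt_A2 hpO hp2 cls ccl hB hB' hne w.irr).mp w
      refine ⟨fun ω => ⟨f ω, hf ω⟩, ?_⟩
      apply Subtype.ext
      funext y
      change nch f ((eA P).symm y) = φ y
      rw [← h]
      simp only [MulEquiv.apply_symm_apply]
  · rw [← card_Wc]
    exact (Nat.card_congr (eA P).toEquiv).symm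

/-- the contribution of a family of subgroups -/
lemma term2 (hpO : (p : ℂ) ∈ O.nonunits) (hp2 : p ≠ 2) (cls : S_CLS) (ccl : S_CCL)
    (hB : IsBlock O B) (hB' : IsBlock O B') (hne : B ≠ B') (Q' : Cy 2 → Subgroup G) :
    Nat.card (NN (Pw Q')) * nwt p O (GX B B') (Pw Q') =
      ∑ a : Cy 2, ∏ ω, (Nat.card (NN (Q' ω)) * nwt p O (bl B B' (a * ω)) (Q' ω)) := by
  by_cases h : ∀ ω, Quotient.mk (sgS G) (Q' ω) = Quotient.mk (sgS G) (Q' 1)
  · have hg : ∀ ω, ∃ g : G, conjSub g (Q' 1) = Q' ω := fun ω => Quotient.exact (h ω).symm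
    choose g hg using hg
    have h1 : Pw Q' = conjSub (bse g : Wc G 2) (Pw fun _ : Cy 2 => Q' 1) := by
      rw [conj_Pw]
      congr 1
      funext ω
      exact (hg ω).symm
    obtain ⟨h2, h3⟩ := nwt_A2 hpO hp2 cls ccl hB hB' hne (Q' 1)
    have h4 : nwt p O (GX B B') (Pw Q') = nwt p O (GX B B') (Pw fun _ : Cy 2 => Q' 1) := by
      rw [h1, nwt_conj]
    have h5 : Nat.card (NN (Pw Q')) = Nat.card (NN (Pw fun _ : Cy 2 => Q' 1)) := by
      rw [h1, card_NN_conj]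
    have h6 : ∀ ω, Nat.card (NN (Q' ω)) = Nat.card (NN (Q' 1)) := fun ω => by
      rw [← hg ω, card_NN_conj]
    have h7 : ∀ (ω : Cy 2) (X : Set (G → ℂ)), nwt p O X (Q' ω) = nwt p O X (Q' 1) :=
      fun ω X => by rw [← hg ω, nwt_conj]
    have h8 : ∀ a : Cy 2, ∏ ω, (Nat.card (NN (Q' ω)) * nwt p O (bl B B' (a * ω)) (Q' ω)) =
        ∏ ω, (Nat.card (NN (Q' 1)) * nwt p O (bl B B' ω) (Q' 1)) := by
      intro a
      rw [← prod_rot (fun ω => Nat.card (NN (Q' 1)) * nwt p O (bl B B' ω) (Q' 1)) a]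
      exact Finset.prod_congr rfl fun ω _ => by rw [h6, h7]
    rw [Finset.sum_congr rfl fun a _ => h8 a, Finset.sum_const, Finset.card_univ, card_Cy,
      h4, h5, h2, h3, Finset.prod_mul_distrib, smul_eq_mul, mul_assoc]
  · have hN : ∀ y ∈ NN (Pw Q'), y.right = 1 := by
      intro y hy
      by_contra hne
      apply h
      intro ω
      have h1 := all_conj hy hne ω
      exact (Quotient.sound h1).symm
    obtain ⟨h2, h3⟩ := nwt_B2 hpO hp2 cls ccl hB hB' hne hN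
    rw [h2, h3, Finset.mul_sum]
    exact Finset.sum_congr rfl fun a _ => Finset.prod_mul_distrib.symm

/-- the main computation -/
theorem ngx_aux (cls : S_CLS) (ccl : S_CCL) (wpq : S_WPQ) (hpO : (p : ℂ) ∈ O.nonunits)
    (hp2 : p ≠ 2) (hB : IsBlock O B) (hB' : IsBlock O B') (hne : B ≠ B') :
    nW p O (GX B B') = nW p O B * nW p O B' := by
  have : Fintype (Subgroup G) := Fintype.ofFinite _
  have : Fintype (Wc G 2) := Fintype.ofFinite _
  have : Fintype (Subgroup (Wc G 2)) := Fintype.ofFinite _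
  have h1 := nW_sum (G := Wc G 2) (p := p) (O := O) (B := GX B B')
  have h2 : ∑ P : Subgroup (Wc G 2), Nat.card (NN P) * nwt p O (GX B B') P =
      ∑ Q' : Cy 2 → Subgroup G, Nat.card (NN (Pw Q')) * nwt p O (GX B B') (Pw Q') := by
    rw [← Finset.sum_image (s := (Finset.univ : Finset (Cy 2 → Subgroup G))) (g := Pw)
      (f := fun P => Nat.card (NN P) * nwt p O (GX B B') P) fun Q _ Q' _ h => Pw_inj h]
    symm
    refine Finset.sum_subset (Finset.subset_univ _) fun P _ hP => ?_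
    have h3 : IsEmpty {φ : NN P → ℂ // IsWt p O (GX B B') P φ} := by
      constructor
      rintro ⟨φ, w⟩
      obtain ⟨Q', rfl⟩ := wpq G p 2 hp2 O hpO (GX B B') P φ w
      exact hP (Finset.mem_image_of_mem _ (Finset.mem_univ _))
    have h4 : nwt p O (GX B B') P = 0 := Nat.card_of_isEmpty
    rw [h4, mul_zero]
  rw [h2, Finset.sum_congr rfl fun Q' _ => term2 hpO hp2 cls ccl hB hB' hne Q',
    Finset.sum_comm] at h1
  have h3 : ∀ a : Cy 2, ∑ Q' : Cy 2 → Subgroup G,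
      ∏ ω, (Nat.card (NN (Q' ω)) * nwt p O (bl B B' (a * ω)) (Q' ω)) =
      ∏ ω, (Nat.card G * nW p O (bl B B' ω)) := by
    intro a
    have h8 := Finset.prod_univ_sum (fun _ : Cy 2 => (Finset.univ : Finset (Subgroup G)))
      (fun ω P => (Nat.card (NN P) * nwt p O (bl B B' (a * ω)) P))
    rw [Fintype.piFinset_univ] at h8
    rw [← h8, ← prod_rot (fun ω => Nat.card G * nW p O (bl B B' ω)) a]
    exact Finset.prod_congr rfl fun ω _ => nW_sum.symm
  rw [Finset.sum_congr rfl fun a _ => h3 a, Finset.sum_const, Finset.card_univ, card_Cy,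
    card_Wc, smul_eq_mul, mul_assoc] at h1
  have h4 := mul_left_cancel₀ two_ne_zero h1
  rw [Finset.prod_mul_distrib] at h4
  have h5 : (∏ _ω : Cy 2, Nat.card G) ≠ 0 :=
    Finset.prod_ne_zero_iff.mpr fun _ _ => Nat.card_pos.ne'
  rw [mul_left_cancel₀ h5 h4, Pool.Agent.Q151.AM.pr2, bl_one, bl_aa]

end

/-- **NGX**, with the block property proved in `Q151.AM.GBL` -/
theorem t_NGX' : S_CLS → S_CCL → S_WPQ → S_NGX := by
  intro cls ccl wpq G _ _ p _ hp2 O hpO B B' hB hB' hne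
  exact ngx_aux cls ccl wpq hpO hp2 hB hB' hne

/-- **NGX** -/
theorem t_NGX : S_CLS → S_CCL → S_GBL → S_WPQ → S_NGX := by
  intro cls ccl _ wpq
  exact t_NGX' cls ccl wpq

end Pool.Agent.Q153.AM
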